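import Pool.Agent.H773.IE.SR

/-!
# Rauzy induction: second phase of a round of Kerckhoff's argument
-/

set_option autoImplicit false

open MeasureTheory Set Filter Topology
open scoped ENNReal

namespace Pool.Agent.H729.IE

open Pool.Agent.H773.IE

section defs

variable {m : ℕ}

/-- the target -/
def Su (B : Finset (Fin (m + 1))) (θ M : ℝ) (s' : Sta m) (q' : Fin (m + 1) → ℝ) : Prop :=
  IrrS s' ∧ (∀ i, 0 < q' i) ∧ (∀ i ∈ B, θ ≤ q' i) ∧
    (∃ i, i ∉ B ∧ θ ≤ q' i) ∧ (∀ i, q' i ≤ (2 * (m + 1 : ℝ) + 1) * M)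

/-- running states -/
def D0 (B : Finset (Fin (m + 1))) (θ M : ℝ) (s : Sta m) (q : Fin (m + 1) → ℝ) : Prop :=
  IrrS s ∧ (∀ i, 0 < q i) ∧ (∀ i ∈ B, θ ≤ q i) ∧ (∀ i, i ∉ B → q i < θ) ∧
    (∀ i, q i ≤ 2 * (m + 1 : ℝ) * M) ∧ (et s ∉ B ∨ eb s ∉ B)

/-- failure -/
def Fa (B : Finset (Fin (m + 1))) (M : ℝ) (q : Fin (m + 1) → ℝ) : Prop :=
  (∀ i, 0 < q i) ∧ ∃ o ∈ B, 2 * (m + 1 : ℝ) * M < q o

/-- the potential -/
noncomputable def ff (B : Finset (Fin (m + 1))) (M : ℝ) (q : Fin (m + 1) → ℝ) : ℝ :=
  (∑ o ∈ B, q o) / (2 * (m + 1 : ℝ) * M)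

theorem not_su {B : Finset (Fin (m + 1))} {θ M : ℝ} {s : Sta m} {q : Fin (m + 1) → ℝ}
    (h : D0 B θ M s q) : ¬ Su B θ M s q := by
  rintro ⟨-, -, -, ⟨i, hi, h1⟩, -⟩
  exact absurd (h.2.2.2.1 i hi) (not_lt.mpr h1)

theorem end_nxt {B : Finset (Fin (m + 1))} {s : Sta m} {b : Bool} (h : win s b ∉ B) :
    et (nxt s b) ∉ B ∨ eb (nxt s b) ∉ B := by
  cases b
  · right
    have h1 : eb (nxt s false) = eb s := rfl
    rw [h1]
    simpa [win] using h
  · left
    have h1 : et (nxt s true) = et s := rfl
    rw [h1]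
    simpa [win] using h

theorem los_not {B : Finset (Fin (m + 1))} {s : Sta m} {b : Bool} (h : et s ∉ B ∨ eb s ∉ B)
    (hw : win s b ∈ B) : los s b ∉ B := by
  cases b
  · have h1 : eb s ∈ B := by simpa [win] using hw
    have h2 : et s ∉ B := by
      rcases h with h | h
      · exact h
      · exact absurd h1 h
    simpa [los] using h2
  · have h1 : et s ∈ B := by simpa [win] using hw
    have h2 : eb s ∉ B := by
      rcases h with h | h
      · exact absurd h1 h
      · exact h
    simpa [los] using h2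

theorem nxtQ_los (s : Sta m) (b : Bool) (q : Fin (m + 1) → ℝ) :
    nxtQ s b q (los s b) = q (los s b) + q (win s b) := by
  rw [nxtQ, Function.update_self]

theorem nxtQ_ne (s : Sta m) (b : Bool) (q : Fin (m + 1) → ℝ) {i : Fin (m + 1)}
    (h : i ≠ los s b) : nxtQ s b q i = q i := by
  rw [nxtQ, Function.update_of_ne h]

theorem step_su (hirr : S_irr) (hm : 1 ≤ m) {B : Finset (Fin (m + 1))} {θ M : ℝ} (hθM : θ ≤ M)
    (hM : 0 < M) {s : Sta m} {q : Fin (m + 1) → ℝ} (h : D0 B θ M s q) {b : Bool}
    (hw : win s b ∈ B) : Su B θ M (nxt s b) (nxtQ s b q) := by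
  obtain ⟨h1, h2, h3, h4, h5, h6⟩ := h
  have hl := los_not h6 hw
  refine ⟨hirr m hm s h1 b, nxtQ_pos h2 b, fun i hi => ?_, ⟨los s b, hl, ?_⟩, fun i => ?_⟩
  · rw [nxtQ_ne s b q (by rintro rfl; exact hl hi)]
    exact h3 i hi
  · rw [nxtQ_los]
    linarith [h2 (los s b), h3 _ hw]
  · by_cases hi : i = los s b
    · rw [hi, nxtQ_los]
      have e1 := h4 _ hl
      have e2 := h5 (win s b)
      linarith
    · rw [nxtQ_ne s b q hi]
      linarith [h5 i]

theorem step_D (hirr : S_irr) (hm : 1 ≤ m) {B : Finset (Fin (m + 1))} {θ M : ℝ} (hθM : θ ≤ M)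
    (hM : 0 < M) {s : Sta m} {q : Fin (m + 1) → ℝ} (h : D0 B θ M s q) (b : Bool) :
    D0 B θ M (nxt s b) (nxtQ s b q) ∨ (Su B θ M (nxt s b) (nxtQ s b q) ∨
      Fa B M (nxtQ s b q)) := by
  by_cases hw : win s b ∈ B
  · exact Or.inr (Or.inl (step_su hirr hm hθM hM h hw))
  obtain ⟨h1, h2, h3, h4, h5, h6⟩ := h
  have hI := hirr m hm s h1 b
  have hP := nxtQ_pos h2 b (s := s)
  have hm' : (1 : ℝ) ≤ m := by exact_mod_cast hm
  have hwθ := h4 _ hw
  by_cases hl : los s b ∈ B
  · by_cases hbig : q (los s b) + q (win s b) ≤ 2 * (m + 1 : ℝ) * M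
    · left
      refine ⟨hI, hP, fun i hi => ?_, fun i hi => ?_, fun i => ?_, end_nxt hw⟩
      · by_cases hil : i = los s b
        · rw [hil, nxtQ_los]
          linarith [h3 _ hl, h2 (win s b)]
        · rw [nxtQ_ne s b q hil]
          exact h3 i hi
      · rw [nxtQ_ne s b q (by rintro rfl; exact hi hl)]
        exact h4 i hi
      · by_cases hil : i = los s b
        · rw [hil, nxtQ_los]
          exact hbig
        · rw [nxtQ_ne s b q hil]
          exact h5 i
    · right
      right
      refine ⟨hP, los s b, hl, ?_⟩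
      rw [nxtQ_los]
      exact not_le.mp hbig
  · have hlθ := h4 _ hl
    by_cases hbig : θ ≤ q (los s b) + q (win s b)
    · right
      left
      refine ⟨hI, hP, fun i hi => ?_, ⟨los s b, hl, ?_⟩, fun i => ?_⟩
      · rw [nxtQ_ne s b q (by rintro rfl; exact hl hi)]
        exact h3 i hi
      · rw [nxtQ_los]
        exact hbig
      · by_cases hil : i = los s b
        · rw [hil, nxtQ_los]
          nlinarith
        · rw [nxtQ_ne s b q hil]
          linarith [h5 i]
    · left
      rw [not_le] at hbig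
      refine ⟨hI, hP, fun i hi => ?_, fun i hi => ?_, fun i => ?_, end_nxt hw⟩
      · rw [nxtQ_ne s b q (by rintro rfl; exact hl hi)]
        exact h3 i hi
      · by_cases hil : i = los s b
        · rw [hil, nxtQ_los]
          exact hbig
        · rw [nxtQ_ne s b q hil]
          exact h4 i hi
      · by_cases hil : i = los s b
        · rw [hil, nxtQ_los]
          nlinarith
        · rw [nxtQ_ne s b q hil]
          exact h5 i

theorem ff_not {B : Finset (Fin (m + 1))} {M : ℝ} {s : Sta m} {q : Fin (m + 1) → ℝ} {b : Bool}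
    (h : los s b ∉ B) : ff B M (nxtQ s b q) = ff B M q := by
  unfold ff
  congr 1
  refine Finset.sum_congr rfl fun i hi => ?_
  exact nxtQ_ne s b q (by rintro rfl; exact h hi)

theorem ff_mem {B : Finset (Fin (m + 1))} {M : ℝ} {s : Sta m} {q : Fin (m + 1) → ℝ} {b : Bool}
    (h : los s b ∈ B) : ff B M (nxtQ s b q) = ff B M q + q (win s b) / (2 * (m + 1 : ℝ) * M) := by
  unfold ff
  rw [← add_div]
  congr 1
  rw [← Finset.add_sum_erase B _ h, ← Finset.add_sum_erase B q h, nxtQ_los]
  have h1 : ∑ x ∈ B.erase (los s b), nxtQ s b q x = ∑ x ∈ B.erase (los s b), q x :=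
    Finset.sum_congr rfl fun i hi => nxtQ_ne s b q (Finset.ne_of_mem_erase hi)
  rw [h1]
  ring

open Classical in
/-- the bound for the potential after a step -/
noncomputable def gg (B : Finset (Fin (m + 1))) (M : ℝ) (s : Sta m) (q : Fin (m + 1) → ℝ)
    (b : Bool) : ℝ := if win s b ∈ B then 0 else ff B M (nxtQ s b q)

theorem ff_nonneg {B : Finset (Fin (m + 1))} {M : ℝ} (hM : 0 < M) {q : Fin (m + 1) → ℝ}
    (h : ∀ i, 0 < q i) : 0 ≤ ff B M q := by
  unfold ff
  exact div_nonneg (Finset.sum_nonneg fun i _ => (h i).le) (by positivity)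

theorem gg_nonneg {B : Finset (Fin (m + 1))} {M : ℝ} (hM : 0 < M) {s : Sta m}
    {q : Fin (m + 1) → ℝ} (h : ∀ i, 0 < q i) (b : Bool) : 0 ≤ gg B M s q b := by
  unfold gg
  split_ifs
  · exact le_refl _
  · exact ff_nonneg hM (nxtQ_pos h b)

/-- the potential is superharmonic -/
theorem gg_sum {B : Finset (Fin (m + 1))} {θ M : ℝ} (hM : 0 < M)
    {s : Sta m} {q : Fin (m + 1) → ℝ} (h : D0 B θ M s q) :
    pr s true q * gg B M s q true + pr s false q * gg B M s q false ≤ ff B M q := by
  obtain ⟨h1, h2, h3, h4, h5, h6⟩ := h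
  have key : ∀ b : Bool, win s b ∈ B → los s b ∉ B → win s (!b) = los s b → los s (!b) = win s b →
      pr s b q * gg B M s q b + pr s (!b) q * gg B M s q (!b) ≤ ff B M q := by
    intro b hw hl e1 e2
    have g1 : gg B M s q b = 0 := by
      unfold gg
      rw [if_pos hw]
    have g2 : gg B M s q (!b) = ff B M q + q (los s b) / (2 * (m + 1 : ℝ) * M) := by
      unfold gg
      rw [if_neg (by rw [e1]; exact hl), ff_mem (by rw [e2]; exact hw), e1]
    have g3 : pr s (!b) q = q (win s b) / (q (win s b) + q (los s b)) := by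
      unfold pr
      rw [e1, e2]
    rw [g1, g2, g3, mul_zero, zero_add]
    have p1 := h2 (win s b)
    have p2 := h2 (los s b)
    have hS : q (win s b) ≤ ∑ o ∈ B, q o :=
      Finset.single_le_sum (f := q) (fun i _ => (h2 i).le) hw
    have hden : 0 < 2 * (m + 1 : ℝ) * M := by positivity
    unfold ff
    rw [← add_div, div_mul_div_comm, div_le_div_iff₀ (by positivity) hden]
    have h7 : q (win s b) * ((∑ o ∈ B, q o) + q (los s b)) ≤
        (∑ o ∈ B, q o) * (q (win s b) + q (los s b)) := by nlinarith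
    nlinarith [mul_le_mul_of_nonneg_right h7 hden.le]
  by_cases ht : et s ∈ B
  · have hb : eb s ∉ B := by
      rcases h6 with h | h
      · exact absurd ht h
      · exact h
    exact key true ht hb rfl rfl
  · by_cases hb : eb s ∈ B
    · rw [add_comm]
      exact key false hb ht rfl rfl
    · have g1 : gg B M s q true = ff B M q := by
        have e : win s true = et s := rfl
        unfold gg
        rw [e, if_neg ht]
        exact ff_not hb
      have g2 : gg B M s q false = ff B M q := by
        have e : win s false = eb s := rfl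
        unfold gg
        rw [e, if_neg hb]
        exact ff_not ht
      rw [g1, g2, ← add_mul, pr_add s h2, one_mul]

end defs

theorem t_round2 (hex : S_ex) (hirr : S_irr) (htie : S_tie) (hlink : S_link) (hK : S_K)
    (hmin : S_min) (hcomp : S_comp) : S_round2 := by
  classical
  intro m hm s hs B hBn hBu θ M q hθ hq hqM hqB hqB' hend
  show (1 / 2 : ℝ≥0∞) ≤ hP (Su B θ M) s q
  obtain ⟨o, ho⟩ := hBn
  have hθM : θ ≤ M := (hqB o ho).trans (hqM o)
  have hM : 0 < M := lt_of_lt_of_le hθ hθM
  have hm' : (1 : ℝ) ≤ m := by exact_mod_cast hm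
  obtain ⟨c1, c2, c3, -⟩ := hcomp m hm (Su B θ M)
  have hinit : D0 B θ M s q :=
    ⟨hs, hq, hqB, hqB', fun i => (hqM i).trans (by nlinarith), hend⟩
  set T : Sta m → (Fin (m + 1) → ℝ) → Prop := fun s q => Su B θ M s q ∨ Fa B M q with hT
  set u : Sta m → (Fin (m + 1) → ℝ) → ℝ≥0∞ := fun s q =>
    if Su B θ M s q then 1 else hP (Su B θ M) s q + ENNReal.ofReal (ff B M q) with hu
  have hule : ∀ s q, u s q ≤ hP (Su B θ M) s q + ENNReal.ofReal (ff B M q) := by
    intro s q
    rw [hu]
    dsimp only
    split_ifs with h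
    · rw [c1 s q h]
      exact le_self_add
    · exact le_refl _
  have hb := hmin m T (fun s q => D0 B θ M s q ∨ T s q) u (fun s q _ hTs => ?_)
    (fun s q hD hnT => ?_) s q (Or.inl hinit)
  rotate_left
  · -- `1 ≤ u` on the target
    rw [hu]
    dsimp only
    split_ifs with h
    · exact le_refl _
    · have hF : Fa B M q := by
        rcases hTs with h1 | h1
        · exact absurd h1 h
        · exact h1
      obtain ⟨hpos, o', ho', hbig⟩ := hF
      have h1 : (1 : ℝ) ≤ ff B M q := by
        unfold ff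
        rw [le_div_iff₀ (by positivity), one_mul]
        exact hbig.le.trans (Finset.single_le_sum (f := q) (fun i _ => (hpos i).le) ho')
      have h2 : (1 : ℝ≥0∞) ≤ ENNReal.ofReal (ff B M q) := by
        rw [← ENNReal.ofReal_one]
        exact ENNReal.ofReal_le_ofReal h1
      exact h2.trans le_add_self
  · -- superharmonic
    have hD0 : D0 B θ M s q := by
      rcases hD with h | h
      · exact h
      · exact absurd h hnT
    have hq' := hD0.2.1
    refine ⟨fun b => step_D hirr hm hθM hM hD0 b, ?_⟩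
    have hus : u s q = hP (Su B θ M) s q + ENNReal.ofReal (ff B M q) := by
      rw [hu]
      dsimp only
      rw [if_neg (not_su hD0)]
    have hub : ∀ b, u (nxt s b) (nxtQ s b q) ≤
        hP (Su B θ M) (nxt s b) (nxtQ s b q) + ENNReal.ofReal (gg B M s q b) := by
      intro b
      unfold gg
      by_cases hw : win s b ∈ B
      · have h1 := step_su hirr hm hθM hM hD0 hw
        rw [if_pos hw, ENNReal.ofReal_zero, add_zero, c1 _ _ h1, hu]
        dsimp only
        rw [if_pos h1]
      · rw [if_neg hw]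
        exact hule _ _
    rw [hus, c2 s q (not_su hD0)]
    have hpr : ∀ b, 0 ≤ pr s b q := fun b => pr_nonneg s hq' b
    have hgg : ∀ b, 0 ≤ gg B M s q b := fun b => gg_nonneg hM hq' b
    calc ENNReal.ofReal (pr s true q) * u (nxt s true) (nxtQ s true q) +
          ENNReal.ofReal (pr s false q) * u (nxt s false) (nxtQ s false q)
        ≤ ENNReal.ofReal (pr s true q) * (hP (Su B θ M) (nxt s true) (nxtQ s true q) +
            ENNReal.ofReal (gg B M s q true)) +
          ENNReal.ofReal (pr s false q) * (hP (Su B θ M) (nxt s false) (nxtQ s false q) +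
            ENNReal.ofReal (gg B M s q false)) :=
          add_le_add (mul_le_mul_right (hub true) _) (mul_le_mul_right (hub false) _)
      _ = (ENNReal.ofReal (pr s true q) * hP (Su B θ M) (nxt s true) (nxtQ s true q) +
            ENNReal.ofReal (pr s false q) * hP (Su B θ M) (nxt s false) (nxtQ s false q)) +
          (ENNReal.ofReal (pr s true q * gg B M s q true + pr s false q * gg B M s q false)) := by
          rw [ENNReal.ofReal_add (mul_nonneg (hpr _) (hgg _)) (mul_nonneg (hpr _) (hgg _)),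
            ENNReal.ofReal_mul (hpr _), ENNReal.ofReal_mul (hpr _)]
          ring
      _ ≤ _ := by
          gcongr
          exact gg_sum hM hD0
  -- the target is hit almost surely
  have hone : hP T s q = 1 := by
    rw [hlink m hm T s hs q hq]
    obtain ⟨-, hprob, hpos, -, -⟩ := hex (m + 1) q hq
    have hae : ∀ᵐ lam ∂(EE q), lam ∈ {lam | ∃ p, Cyl p s lam ∧ T (run p s) (runQ p s q)} := by
      filter_upwards [hpos, htie m hm s hs q hq] with lam hl hnt
      obtain ⟨p, b, hcyl, hwin⟩ := hK m hm s lam hs hl hnt o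
      by_contra hno
      have hno' : ∀ p', p' <+: p ++ [b] → ¬ T (run p' s) (runQ p' s q) := by
        rintro p' ⟨r, hr⟩ hTp
        refine hno ⟨p', ?_, hTp⟩
        rw [← hr, Cyl_append] at hcyl
        exact hcyl.1
      have hall : ∀ p', p' <+: p → D0 B θ M (run p' s) (runQ p' s q) := by
        intro p'
        induction p' using List.reverseRecOn with
        | nil => intro _; exact hinit
        | append_singleton p' b' ih =>
          intro hpre
          have h1 : p' <+: p := (List.prefix_append p' [b']).trans hpre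
          have h2 := ih h1
          rw [run_append, runQ_append]
          rcases step_D hirr hm hθM hM h2 b' with h3 | h3
          · exact h3
          · have h4 := hno' (p' ++ [b']) (hpre.trans (List.prefix_append p [b]))
            rw [run_append, runQ_append] at h4
            exact absurd h3 h4
      have h1 := hall p (List.prefix_refl p)
      have h2 := step_su hirr hm hθM hM h1 (b := b) (by rw [hwin]; exact ho)
      have h3 := hno' (p ++ [b]) (List.prefix_refl _)
      rw [run_append, runQ_append] at h3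
      exact h3 (Or.inl h2)
    have h1 : EE q {lam | ∃ p, Cyl p s lam ∧ T (run p s) (runQ p s q)} = EE q univ :=
      measure_congr (eventuallyEq_univ.mpr hae)
    exact h1.trans hprob.measure_univ
  rw [hone] at hb
  have hus : u s q = hP (Su B θ M) s q + ENNReal.ofReal (ff B M q) := by
    rw [hu]
    dsimp only
    rw [if_neg (not_su hinit)]
  rw [hus] at hb
  have hhalf : ENNReal.ofReal (ff B M q) ≤ 1 / 2 := by
    have h1 : ff B M q ≤ 1 / 2 := by
      unfold ff
      rw [div_le_div_iff₀ (by positivity) (by norm_num)]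
      have h2 : ∑ o ∈ B, q o ≤ (m + 1 : ℝ) * M := by
        calc ∑ o ∈ B, q o ≤ ∑ o, q o :=
              Finset.sum_le_sum_of_subset_of_nonneg (Finset.subset_univ _) fun i _ _ => (hq i).le
          _ ≤ ∑ _o : Fin (m + 1), M := Finset.sum_le_sum fun i _ => hqM i
          _ = (m + 1 : ℝ) * M := by
              rw [Finset.sum_const, Finset.card_univ, Fintype.card_fin, nsmul_eq_mul]
              push_cast
              ring
      linarith
    refine (ENNReal.ofReal_le_ofReal h1).trans (le_of_eq ?_)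
    rw [ENNReal.ofReal_div_of_pos (by norm_num), ENNReal.ofReal_one, ENNReal.ofReal_ofNat]
  have h3 : (1 : ℝ≥0∞) ≤ hP (Su B θ M) s q + 1 / 2 := hb.trans (by gcongr)
  have h4 : (1 : ℝ≥0∞) - 1 / 2 ≤ hP (Su B θ M) s q := tsub_le_iff_right.mpr h3
  have h5 : (1 : ℝ≥0∞) - 1 / 2 = 1 / 2 := by
    rw [one_div]
    exact ENNReal.one_sub_inv_two
  rwa [h5] at h4

end Pool.Agent.H729.IE
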